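import Pool.Agent.Q160.SY.Stm

/-!
# Project SY: the chains of diagonals (jobs CH1 and CH2)
-/

set_option autoImplicit false

open MeasureTheory Set
open scoped Nat ENNReal

namespace Q121.SY

open Pool.Agent.Q160.SY

/-- the open unit box -/
def box (k : ℕ) : Set (Fin k → ℝ) := univ.pi fun _ => Ioo 0 1

theorem pi_U (k : ℕ) : (Measure.pi fun _ : Fin k => U) = volume.restrict (box k) := by
  unfold box U
  rw [volume_pi, Measure.restrict_pi_pi]

theorem meas_box (k : ℕ) : MeasurableSet (box k) :=
  MeasurableSet.univ_pi fun _ => measurableSet_Ioo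

theorem mem_box {k : ℕ} {x : Fin k → ℝ} : x ∈ box k ↔ ∀ i, x i ∈ Ioo (0 : ℝ) 1 := by
  simp [box]

theorem ex_lt {k : ℕ} (y : Fin k → ℝ) (t : ℕ) (h : t < k) : ex y t = y ⟨t, h⟩ := dif_pos h

theorem strictMono_of_ex {k : ℕ} {y : Fin k → ℝ} (h : ∀ t, t + 1 < k → ex y t < ex y (t + 1)) :
    StrictMono y := by
  rcases k with _ | k
  · exact fun i => i.elim0
  · refine Fin.strictMono_iff_lt_succ.2 fun i => ?_
    have := h i (by omega)
    rw [ex_lt y i (by omega), ex_lt y (i + 1) (by omega)] at this
    exact this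

theorem cont_det {k : ℕ} : Continuous fun x : Fin k → ℝ => (Matrix.vandermonde x).det := by
  apply Continuous.matrix_det
  refine continuous_matrix fun i j => ?_
  simp only [Matrix.vandermonde_apply]
  fun_prop

theorem det_nonneg {k : ℕ} {x : Fin k → ℝ} (h : StrictMono x) :
    0 ≤ (Matrix.vandermonde x).det := by
  rw [Matrix.det_vandermonde]
  refine Finset.prod_nonneg fun i _ => Finset.prod_nonneg fun j hj => ?_
  have := h (Finset.mem_Ioi.1 hj)
  linarith

/-- The integral of a function given on a box by a continuous nonnegative function. -/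
theorem lint {k : ℕ} (H : (Fin k → ℝ) → ℝ≥0∞) (f : (Fin k → ℝ) → ℝ) (hf : Continuous f)
    (C B : Set (Fin k → ℝ)) (hC : MeasurableSet C) (hB : MeasurableSet B)
    (hCB : ∀ x ∈ box k, x ∈ C ↔ x ∈ B) (hBbox : B ⊆ box k)
    (hH : ∀ x ∈ B, H x = ENNReal.ofReal (f x)) (h0 : ∀ x ∈ B, 0 ≤ f x) :
    ∫⁻ x in C, H x ∂(Measure.pi fun _ : Fin k => U) = ENNReal.ofReal (∫ x in B, f x) := by
  have e1 : (Measure.pi fun _ : Fin k => U).restrict C = volume.restrict B := by
    rw [pi_U, Measure.restrict_restrict hC]
    congr 1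
    ext x
    constructor
    · rintro ⟨h1, h2⟩
      exact (hCB x h2).1 h1
    · intro h1
      exact ⟨(hCB x (hBbox h1)).2 h1, hBbox h1⟩
  rw [e1, setLIntegral_congr_fun hB hH]
  have hint : IntegrableOn f B volume := by
    refine IntegrableOn.mono_set (t := univ.pi fun _ => Icc 0 1) ?_ ?_
    · exact hf.continuousOn.integrableOn_compact (isCompact_univ_pi fun _ => isCompact_Icc)
    · intro x hx i _
      exact Ioo_subset_Icc_self (mem_box.1 (hBbox hx) i)
  rw [ofReal_integral_eq_lintegral_ofReal hint]
  exact (ae_restrict_iff' hB).2 (Filter.Eventually.of_forall h0)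

open Classical in
theorem step1 (hUP : J_UP) (k : ℕ) (H : (Fin k → ℝ) → ℝ≥0∞) (c : ℝ) (hc : 0 < c)
    (hH : ∀ x : Fin k → ℝ, (∀ t, x t ∈ Ioo (0 : ℝ) 1) →
      H x = if StrictMono x then ENNReal.ofReal ((Matrix.vandermonde x).det / c) else 0)
    (k' : ℕ) (hk' : k' = k + 1) (y : Fin k' → ℝ) (hy : ∀ t, y t ∈ Ioo (0 : ℝ) 1) :
    ∫⁻ x, H x * (if ∀ t < k, ex y t < ex x t ∧ ex x t < ex y (t + 1) then 1 else 0)
      ∂(Measure.pi fun _ : Fin k => U) =
    if StrictMono y then ENNReal.ofReal ((Matrix.vandermonde y).det / (k ! * c)) else 0 := by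
  subst hk'
  by_cases hm : StrictMono y
  · rw [if_pos hm]
    set B : Set (Fin k → ℝ) := univ.pi fun i : Fin k => Ioo (y i.castSucc) (y i.succ) with hB
    have hBm : MeasurableSet B := MeasurableSet.univ_pi fun _ => measurableSet_Ioo
    have hcond : ∀ x : Fin k → ℝ, (∀ t < k, ex y t < ex x t ∧ ex x t < ex y (t + 1)) ↔ x ∈ B := by
      intro x
      simp only [hB, mem_univ_pi, mem_Ioo]
      constructor
      · intro h i
        have := h i i.2
        rw [ex_lt y i (by omega), ex_lt x i i.2, ex_lt y (i + 1) (by omega)] at this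
        exact this
      · intro h t ht
        rw [ex_lt y t (by omega), ex_lt x t ht, ex_lt y (t + 1) (by omega)]
        exact h ⟨t, ht⟩
    have h1 : ∀ x : Fin k → ℝ, H x * (if ∀ t < k, ex y t < ex x t ∧ ex x t < ex y (t + 1) then 1
        else 0) = B.indicator H x := by
      intro x
      by_cases hx : x ∈ B
      · rw [if_pos ((hcond x).2 hx), indicator_of_mem hx, mul_one]
      · rw [if_neg (fun h => hx ((hcond x).1 h)), indicator_of_notMem hx, mul_zero]
    simp only [h1]
    rw [lintegral_indicator hBm]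
    have hBbox : B ⊆ box k := by
      intro x hx
      refine mem_box.2 fun i => ?_
      have := hx i (mem_univ _)
      exact ⟨(hy _).1.trans this.1, this.2.trans (hy _).2⟩
    have hBmono : ∀ x ∈ B, StrictMono x := by
      intro x hx
      refine strictMono_of_ex fun t ht => ?_
      have h2 := (hcond x).2 hx
      exact (h2 t (by omega)).2.trans (h2 (t + 1) ht).1
    rw [lint H (fun x => (Matrix.vandermonde x).det / c) (cont_det.div_const c) B B hBm hBm
      (fun _ _ => Iff.rfl) hBbox (fun x hx => by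
        rw [hH x (mem_box.1 (hBbox hx)), if_pos (hBmono x hx)])
      (fun x hx => div_nonneg (det_nonneg (hBmono x hx)) hc.le)]
    rw [integral_div, hUP k y hm, div_div]
  · rw [if_neg hm]
    have h1 : ∀ x : Fin k → ℝ, H x * (if ∀ t < k, ex y t < ex x t ∧ ex x t < ex y (t + 1) then 1
        else 0) = 0 := by
      intro x
      rw [if_neg, mul_zero]
      intro h
      exact hm (strictMono_of_ex fun t ht => (h t (by omega)).1.trans (h t (by omega)).2)
    simp only [h1, lintegral_zero]

theorem F_succ (m : ℕ) : F (m + 1) = F m * m ! := by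
  unfold F
  rw [Finset.prod_range_succ]

theorem F_pos (m : ℕ) : 0 < F m := by
  unfold F
  exact Finset.prod_pos fun j _ => Nat.factorial_pos j

theorem t_CH1 : J_UP → J_CH1 := by
  classical
  intro hUP p d
  induction d with
  | zero =>
    intro _ y _
    have hk : len p 0 = 1 := by simp [len]
    have hm : StrictMono y := strictMono_of_ex fun t ht => by omega
    have hdet : (Matrix.vandermonde y).det = 1 := by
      rw [Matrix.det_vandermonde]
      refine Finset.prod_eq_one fun i _ => Finset.prod_eq_one fun j hj => ?_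
      have := Finset.mem_Ioi.1 hj
      have h1 := i.2
      have h2 := j.2
      have h3 : (i : ℕ) < j := this
      omega
    have hF : F (0 + 1) = 1 := by simp [F]
    rw [if_pos hm, hdet, hF]
    simp only [h, hh]
    simp
  | succ d ih =>
    intro hd y hy
    have hk : len p d = d + 1 := by
      unfold len
      rw [if_pos (by omega)]
    have hk' : len p (d + 1) = len p d + 1 := by
      rw [hk]
      unfold len
      rw [if_pos hd]
    have h1 := step1 hUP (len p d) (h p d) (F (d + 1)) (by exact_mod_cast F_pos _)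
      (fun x hx => ih (by omega) x hx) (len p (d + 1)) hk' y hy
    have h2 : h p (d + 1) y = ∫⁻ x, h p d x * (if ∀ t < len p d, ex y t < ex x t ∧
        ex x t < ex y (t + 1) then 1 else 0) ∂(Measure.pi fun _ : Fin (len p d) => U) := by
      change ∫⁻ x, h p d x * K p d x y ∂(μr p d) = _
      refine lintegral_congr fun x => ?_
      congr 1
      unfold K Link
      rw [if_pos hd]
      have e : (∀ t ≤ d, ex y t < ex x t ∧ ex x t < ex y (t + 1)) ↔
          (∀ t < len p d, ex y t < ex x t ∧ ex x t < ex y (t + 1)) :=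
        ⟨fun h t ht => h t (by omega), fun h t ht => h t (by omega)⟩
      simp only [e]
    rw [h2, h1, hk]
    have e2 : ((d + 1)! : ℝ) * (F (d + 1) : ℝ) = (F (d + 1 + 1) : ℝ) := by
      rw [F_succ (d + 1)]
      push_cast
      ring
    rw [e2]

open Classical in
theorem step2 (hDOWN : J_DOWN) (k m : ℕ) (k' : ℕ) (hk' : k' = k + 1) (H : (Fin k' → ℝ) → ℝ≥0∞)
    (c : ℝ) (hc : 0 < c)
    (hH : ∀ x : Fin k' → ℝ, (∀ t, x t ∈ Ioo (0 : ℝ) 1) →
      H x = if StrictMono x then
        ENNReal.ofReal (c * ((Matrix.vandermonde x).det * ∏ i, (x i * (1 - x i)) ^ m)) else 0)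
    (y : Fin k → ℝ) (hy : ∀ t, y t ∈ Ioo (0 : ℝ) 1) :
    ∫⁻ x, H x * (if ∀ t < k, ex x t < ex y t ∧ ex y t < ex x (t + 1) then 1 else 0)
      ∂(Measure.pi fun _ : Fin k' => U) =
    if StrictMono y then ENNReal.ofReal (c * ((m ! : ℝ) ^ 2 / (2 * m + 1 + k)! *
      ((Matrix.vandermonde y).det * ∏ i, (y i * (1 - y i)) ^ (m + 1)))) else 0 := by
  subst hk'
  by_cases hm : StrictMono y
  · rw [if_pos hm]
    set B : Set (Fin (k + 1) → ℝ) := univ.pi fun i : Fin (k + 1) =>
      Ioo ((Fin.cons 0 y : Fin (k + 1) → ℝ) i) ((Fin.snoc y 1 : Fin (k + 1) → ℝ) i) with hB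
    have hBm : MeasurableSet B := MeasurableSet.univ_pi fun _ => measurableSet_Ioo
    set C : Set (Fin (k + 1) → ℝ) := {x | ∀ t : Fin k, x t.castSucc < y t ∧ y t < x t.succ} with hC
    have hCm : MeasurableSet C := by
      have : C = ⋂ t : Fin k, ({x : Fin (k + 1) → ℝ | x t.castSucc < y t} ∩
          {x : Fin (k + 1) → ℝ | y t < x t.succ}) := by
        ext x
        simp [hC]
      rw [this]
      exact MeasurableSet.iInter fun t => (measurableSet_lt (measurable_pi_apply _)
        measurable_const).inter (measurableSet_lt measurable_const (measurable_pi_apply _))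
    have hcond : ∀ x : Fin (k + 1) → ℝ, (∀ t < k, ex x t < ex y t ∧ ex y t < ex x (t + 1)) ↔
        x ∈ C := by
      intro x
      constructor
      · intro h t
        have := h t t.2
        rw [ex_lt x t (by omega), ex_lt y t t.2, ex_lt x (t + 1) (by omega)] at this
        exact this
      · intro h t ht
        rw [ex_lt x t (by omega), ex_lt y t ht, ex_lt x (t + 1) (by omega)]
        exact h ⟨t, ht⟩
    have hlo : ∀ t : Fin k, (Fin.cons 0 y : Fin (k + 1) → ℝ) t.succ = y t := fun t =>
      Fin.cons_succ _ _ _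
    have hhi : ∀ t : Fin k, (Fin.snoc y 1 : Fin (k + 1) → ℝ) t.castSucc = y t := fun t => by
      rw [Fin.snoc_castSucc]
    have hlast : (Fin.snoc y 1 : Fin (k + 1) → ℝ) (Fin.last k) = 1 := by
      rw [Fin.snoc_last]
    have hBC : ∀ x ∈ B, x ∈ C := by
      intro x hx t
      have h1 := hx t.castSucc (mem_univ _)
      have h2 := hx t.succ (mem_univ _)
      simp only [mem_Ioo, hhi, hlo] at h1 h2
      exact ⟨h1.2, h2.1⟩
    have hBbox : B ⊆ box (k + 1) := by
      intro x hx
      refine mem_box.2 fun i => ?_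
      have h1 := hx i (mem_univ _)
      constructor
      · refine Fin.cases (fun h1 => ?_) (fun j h1 => ?_) i h1
        · exact h1.1
        · beta_reduce at h1
          rw [hlo] at h1
          exact (hy j).1.trans h1.1
      · refine Fin.lastCases (fun h1 => ?_) (fun j h1 => ?_) i h1
        · beta_reduce at h1
          rw [hlast] at h1
          exact h1.2
        · beta_reduce at h1
          rw [hhi] at h1
          exact h1.2.trans (hy j).2
    have hCB : ∀ x ∈ box (k + 1), x ∈ C ↔ x ∈ B := by
      intro x hx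
      refine ⟨fun hxC i _ => ⟨?_, ?_⟩, hBC x⟩
      · refine Fin.cases ?_ (fun j => ?_) i
        · exact (mem_box.1 hx 0).1
        · rw [hlo]
          exact (hxC j).2
      · refine Fin.lastCases ?_ (fun j => ?_) i
        · rw [hlast]
          exact (mem_box.1 hx _).2
        · rw [hhi]
          exact (hxC j).1
    have h1 : ∀ x : Fin (k + 1) → ℝ, H x * (if ∀ t < k, ex x t < ex y t ∧
        ex y t < ex x (t + 1) then 1 else 0) = C.indicator H x := by
      intro x
      by_cases hx : x ∈ C
      · rw [if_pos ((hcond x).2 hx), indicator_of_mem hx, mul_one]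
      · rw [if_neg (fun h => hx ((hcond x).1 h)), indicator_of_notMem hx, mul_zero]
    simp only [h1]
    rw [lintegral_indicator hCm]
    have hBmono : ∀ x ∈ B, StrictMono x := by
      intro x hx
      refine strictMono_of_ex fun t ht => ?_
      have h2 := (hcond x).2 (hBC x hx)
      exact (h2 t (by omega)).1.trans (h2 t (by omega)).2
    have hprod : ∀ x ∈ B, 0 ≤ ∏ i, (x i * (1 - x i)) ^ m := by
      intro x hx
      refine Finset.prod_nonneg fun i _ => pow_nonneg (mul_nonneg ?_ ?_) _
      · exact (mem_box.1 (hBbox hx) i).1.le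
      · exact sub_nonneg.2 (mem_box.1 (hBbox hx) i).2.le
    have hcont : Continuous fun x : Fin (k + 1) → ℝ =>
        c * ((Matrix.vandermonde x).det * ∏ i, (x i * (1 - x i)) ^ m) := by
      refine continuous_const.mul (cont_det.mul ?_)
      fun_prop
    rw [lint H _ hcont C B hCm hBm hCB hBbox (fun x hx => by
        rw [hH x (mem_box.1 (hBbox hx)), if_pos (hBmono x hx)])
      (fun x hx => mul_nonneg hc.le (mul_nonneg (det_nonneg (hBmono x hx)) (hprod x hx)))]
    rw [integral_const_mul, hDOWN k m y hm hy]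
  · rw [if_neg hm]
    have h1 : ∀ x : Fin (k + 1) → ℝ, H x * (if ∀ t < k, ex x t < ex y t ∧
        ex y t < ex x (t + 1) then 1 else 0) = 0 := by
      intro x
      rw [if_neg, mul_zero]
      intro h
      exact hm (strictMono_of_ex fun t ht => (h t (by omega)).2.trans (h (t + 1) ht).1)
    simp only [h1, lintegral_zero]

theorem t_CH2 : J_CH1 → J_DOWN → J_CH2 := by
  classical
  intro hCH1 hDOWN p e
  induction e with
  | zero =>
    intro _ y hy
    rw [hCH1 p (p + 2) le_rfl y hy]
    congr 2
    simp [F]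
    ring
  | succ e ih =>
    intro he y hy
    have hkv : len p (p + 2 + (e + 1)) = p + 2 - e := by
      unfold len
      rw [if_neg (by omega), if_pos (by omega)]
      omega
    have hk' : len p (p + 2 + e) = len p (p + 2 + (e + 1)) + 1 := by
      rw [hkv]
      unfold len
      split_ifs <;> omega
    have h1 := step2 hDOWN (len p (p + 2 + (e + 1))) e (len p (p + 2 + e)) hk' (h p (p + 2 + e))
      ((F e : ℝ) ^ 2 / F (p + 3 + e)) (by
        have h2 : (0 : ℝ) < F e := by exact_mod_cast F_pos _
        have h3 : (0 : ℝ) < F (p + 3 + e) := by exact_mod_cast F_pos _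
        positivity) (fun x hx => ih (by omega) x hx) y hy
    have h2 : h p (p + 2 + (e + 1)) y = ∫⁻ x, h p (p + 2 + e) x *
        (if ∀ t < len p (p + 2 + (e + 1)), ex x t < ex y t ∧
        ex y t < ex x (t + 1) then 1 else 0) ∂(Measure.pi fun _ : Fin (len p (p + 2 + e)) => U) := by
      change ∫⁻ x, h p (p + 2 + e) x * K p (p + 2 + e) x y ∂(μr p (p + 2 + e)) = _
      refine lintegral_congr fun x => ?_
      congr 1
      unfold K Link
      rw [if_neg (show ¬ (p + 2 + e + 1 ≤ p + 2) by omega),
        if_pos (show p + 2 + e + 1 ≤ 2 * p + 2 by omega)]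
      have e1 : (∀ t < 2 * p + 4 - (p + 2 + e), ex x t < ex y t ∧ ex y t < ex x (t + 1)) ↔
          (∀ t < len p (p + 2 + (e + 1)), ex x t < ex y t ∧ ex y t < ex x (t + 1)) :=
        ⟨fun h t ht => h t (by omega), fun h t ht => h t (by omega)⟩
      simp only [e1]
    rw [h2, h1]
    congr 2
    have e3 : 2 * e + 1 + len p (p + 2 + (e + 1)) = p + 3 + e := by omega
    have e4 : F (p + 3 + (e + 1)) = F (p + 3 + e) * (p + 3 + e)! := F_succ _
    have e5 : F (e + 1) = F e * e ! := F_succ _
    rw [e3, e4, e5]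
    have h3 : (F (p + 3 + e) : ℝ) ≠ 0 := by exact_mod_cast (F_pos _).ne'
    have h4 : ((p + 3 + e)! : ℝ) ≠ 0 := by exact_mod_cast Nat.factorial_ne_zero _
    push_cast
    field_simp

end Q121.SY
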