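import Pool.Agent.Q160.SY.Stm

/-!
# Project SY: the cells are the entries of the rows (job GEO)
-/

set_option autoImplicit false

open MeasureTheory Set
open scoped Nat ENNReal

namespace Q121.SY.Geo

open Pool.Agent.Q160.SY

theorem mem_D {n i j : ℕ} : (i, j) ∈ D n ↔ (1 ≤ i ∧ i ≤ n) ∧ (1 ≤ j ∧ j ≤ n) ∧
    ¬ (i = 1 ∧ j = n - 1) ∧ ¬ (i = 1 ∧ j = n) := by
  simp only [D, Finset.mem_sdiff, Finset.mem_product, Finset.mem_Icc, Finset.mem_insert,
    Finset.mem_singleton, Prod.mk.injEq, not_or]
  tauto

/-- the row of a cell -/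
def dd (p : ℕ) (c : ℕ × ℕ) : ℕ := c.2 + (p + 2) - c.1

/-- the index of a cell in its row -/
def ti (p : ℕ) (c : ℕ × ℕ) : ℕ :=
  if dd p c ≤ p + 2 then c.2 - 1 else if dd p c ≤ 2 * p + 2 then c.1 - 1 else 0

/-- the cell -/
def cell (p d t : ℕ) : ℕ × ℕ :=
  if d ≤ p + 2 then (p + 3 - d + t, 1 + t)
  else if d ≤ 2 * p + 2 then (1 + t, 1 + (d - (p + 2)) + t) else (2, p + 3)

theorem dd_lt {p i j : ℕ} (h : (i, j) ∈ D (p + 3)) : dd p (i, j) < 2 * p + 3 + 1 := by
  rw [mem_D] at h
  simp only [dd]
  omega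

theorem ti_lt {p i j : ℕ} (h : (i, j) ∈ D (p + 3)) : ti p (i, j) < len p (dd p (i, j)) := by
  rw [mem_D] at h
  simp only [ti, dd, len]
  split_ifs <;> omega

theorem cell_dd {p i j : ℕ} (h : (i, j) ∈ D (p + 3)) :
    cell p (dd p (i, j)) (ti p (i, j)) = (i, j) := by
  rw [mem_D] at h
  simp only [cell, ti, dd]
  split_ifs <;> rw [Prod.mk.injEq] <;> omega

theorem cell_mem {p d t : ℕ} (hd : d < 2 * p + 3 + 1) (ht : t < len p d) :
    cell p d t ∈ D (p + 3) := by
  unfold len at ht
  unfold cell
  split_ifs at ht ⊢ <;> rw [mem_D] <;> omega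

theorem dd_cell {p d t : ℕ} (hd : d < 2 * p + 3 + 1) (ht : t < len p d) :
    dd p (cell p d t) = d := by
  unfold len at ht
  unfold cell dd
  split_ifs at ht ⊢ <;> simp only <;> omega

theorem ti_cell {p d t : ℕ} (hd : d < 2 * p + 3 + 1) (ht : t < len p d) :
    ti p (cell p d t) = t := by
  unfold ti
  rw [dd_cell hd ht]
  unfold len at ht
  unfold cell
  split_ifs at ht ⊢ <;> first | omega | (simp only; omega)

theorem sig_ext {p M : ℕ} (d d' : Fin M) (t : Fin (len p d)) (t' : Fin (len p d')) (h : d = d')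
    (ht : (t : ℕ) = t') : (⟨d, t⟩ : Σ d : Fin M, Fin (len p d)) = ⟨d', t'⟩ := by
  subst h
  congr
  exact Fin.ext ht

/-- the cells and the entries -/
def fe (p : ℕ) : (Σ d : Fin (2 * p + 3 + 1), Fin (len p d)) ≃ {c : ℕ × ℕ // c ∈ D (p + 3)} where
  toFun x := ⟨cell p x.1 x.2, cell_mem x.1.2 x.2.2⟩
  invFun c := ⟨⟨dd p c.1, dd_lt c.2⟩, ⟨ti p c.1, ti_lt c.2⟩⟩
  left_inv x := by
    obtain ⟨d, t⟩ := x
    exact sig_ext _ _ _ _ (Fin.ext (dd_cell d.2 t.2)) (ti_cell d.2 t.2)
  right_inv c := Subtype.ext (cell_dd c.2)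

/-- the entries as a function on the cells -/
def Psi (p : ℕ) (x : ∀ d : Fin (2 * p + 3 + 1), (Fin (len p d) → ℝ)) (c : {c : ℕ × ℕ // c ∈ D (p + 3)}) :
    ℝ := x ((fe p).symm c).1 ((fe p).symm c).2

theorem measurable_Psi (p : ℕ) : Measurable (Psi p) := by
  refine measurable_pi_iff.2 fun c => ?_
  exact (measurable_pi_apply ((fe p).symm c).2).comp (measurable_pi_apply ((fe p).symm c).1)

theorem map_Psi (p : ℕ) : Measure.map (Psi p) (Measure.pi fun d : Fin (2 * p + 3 + 1) => μr p d) =
    μc (p + 3) := by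
  symm
  refine Measure.pi_eq fun s hs => ?_
  rw [Measure.map_apply (measurable_Psi p) (MeasurableSet.univ_pi hs)]
  have h1 : Psi p ⁻¹' (univ.pi s) = univ.pi fun d : Fin (2 * p + 3 + 1) =>
      univ.pi fun t : Fin (len p d) => s (fe p ⟨d, t⟩) := by
    ext x
    simp only [mem_preimage, mem_univ_pi]
    constructor
    · intro h d t
      have := h (fe p ⟨d, t⟩)
      unfold Psi at this
      rwa [Equiv.symm_apply_apply] at this
    · intro h c
      have := h ((fe p).symm c).1 ((fe p).symm c).2
      have e : fe p ⟨((fe p).symm c).1, ((fe p).symm c).2⟩ = c := (fe p).apply_symm_apply c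
      rw [e] at this
      exact this
  rw [h1, Measure.pi_pi]
  have h2 : ∀ d : Fin (2 * p + 3 + 1), μr p d (univ.pi fun t : Fin (len p d) => s (fe p ⟨d, t⟩)) =
      ∏ t : Fin (len p d), U (s (fe p ⟨d, t⟩)) := by
    intro d
    unfold μr
    rw [Measure.pi_pi]
  simp only [h2]
  rw [← Equiv.prod_comp (fe p), Fintype.prod_sigma]

theorem ex_lt {k : ℕ} (y : Fin k → ℝ) (t : ℕ) (h : t < k) : ex y t = y ⟨t, h⟩ := dif_pos h

/-- the entries as a function on pairs of numbers -/
noncomputable def val (p : ℕ) (x : ∀ d : Fin (2 * p + 3 + 1), (Fin (len p d) → ℝ)) (d t : ℕ) : ℝ :=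
  if hd : d < 2 * p + 3 + 1 then ex (x ⟨d, hd⟩) t else 0

theorem Psi_eq (p : ℕ) (x : ∀ d : Fin (2 * p + 3 + 1), (Fin (len p d) → ℝ))
    (c : {c : ℕ × ℕ // c ∈ D (p + 3)}) : Psi p x c = val p x (dd p c.1) (ti p c.1) := by
  unfold val
  rw [dif_pos (dd_lt c.2), ex_lt _ _ (ti_lt c.2)]
  rfl

theorem Link_iff (p : ℕ) (x : ∀ d : Fin (2 * p + 3 + 1), (Fin (len p d) → ℝ)) (d : Fin (2 * p + 3)) :
    Link p d (x d.castSucc) (x d.succ) ↔
    (if (d : ℕ) + 1 ≤ p + 2 then ∀ t ≤ (d : ℕ), val p x (d + 1) t < val p x d t ∧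
        val p x d t < val p x (d + 1) (t + 1)
      else if (d : ℕ) + 1 ≤ 2 * p + 2 then ∀ t < 2 * p + 4 - (d : ℕ), val p x d t < val p x (d + 1) t ∧
        val p x (d + 1) t < val p x d (t + 1)
      else val p x d 1 < val p x (d + 1) 0 ∧ val p x (d + 1) 0 < val p x d 2) := by
  have h1 : ∀ t, ex (x d.castSucc) t = val p x d t := by
    intro t
    unfold val
    rw [dif_pos (show (d : ℕ) < 2 * p + 3 + 1 by omega)]
    rfl
  have h2 : ∀ t, ex (x d.succ) t = val p x (d + 1) t := by
    intro t
    unfold val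
    rw [dif_pos (show (d : ℕ) + 1 < 2 * p + 3 + 1 by omega)]
    rfl
  have h1' : ∀ t, ex (k := len p ↑d) (x d.castSucc) t = val p x d t := h1
  have h2' : ∀ t, ex (k := len p ((d : ℕ) + 1)) (x d.succ) t = val p x (d + 1) t := h2
  unfold Link
  simp only [h1', h2']

theorem key (p : ℕ) (x : ∀ d : Fin (2 * p + 3 + 1), (Fin (len p d) → ℝ)) :
    (∀ d : Fin (2 * p + 3), Link p d (x d.castSucc) (x d.succ)) ↔
    ∀ a b, Rel (p + 3) a b → Psi p x a < Psi p x b := by
  constructor
  · rintro h ⟨⟨i, j⟩, ha⟩ ⟨⟨i', j'⟩, hb⟩ hab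
    rw [Psi_eq, Psi_eq]
    have ha' := mem_D.1 ha
    have hb' := mem_D.1 hb
    have hda := dd_lt ha
    have hdb := dd_lt hb
    rcases hab with hab | hab
    · simp only [Prod.mk.injEq] at hab
      obtain ⟨hi, hj⟩ := hab
      have hdd : dd p (i', j') = dd p (i, j) + 1 := by
        simp only [dd]
        omega
      have h1 := (Link_iff p x ⟨dd p (i, j), by omega⟩).1 (h _)
      simp only at h1 ⊢
      rw [hdd]
      split_ifs at h1 with c1 c2
      · have e1 : ti p (i', j') = ti p (i, j) + 1 := by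
          simp only [ti, dd] at c1 ⊢
          split_ifs <;> omega
        rw [e1]
        refine (h1 _ ?_).2
        simp only [ti, dd] at c1 ⊢
        split_ifs <;> omega
      · have e1 : ti p (i', j') = ti p (i, j) := by
          simp only [ti, dd] at c1 c2 ⊢
          split_ifs <;> omega
        rw [e1]
        refine (h1 _ ?_).1
        simp only [ti, dd] at c1 c2 ⊢
        split_ifs <;> omega
      · have e1 : ti p (i', j') = 0 := by
          simp only [ti, dd] at c1 c2 ⊢
          split_ifs <;> omega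
        have e2 : ti p (i, j) = 1 := by
          simp only [ti, dd] at c1 c2 hdb ⊢
          split_ifs <;> omega
        rw [e1, e2]
        exact h1.1
    · simp only [Prod.mk.injEq] at hab
      obtain ⟨hi, hj⟩ := hab
      have hdd : dd p (i, j) = dd p (i', j') + 1 := by
        simp only [dd]
        omega
      have h1 := (Link_iff p x ⟨dd p (i', j'), by omega⟩).1 (h _)
      simp only at h1 ⊢
      rw [hdd]
      split_ifs at h1 with c1 c2
      · have e1 : ti p (i, j) = ti p (i', j') := by
          simp only [ti, dd] at c1 ⊢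
          split_ifs <;> omega
        rw [e1]
        refine (h1 _ ?_).1
        simp only [ti, dd] at c1 ⊢
        split_ifs <;> omega
      · have e1 : ti p (i', j') = ti p (i, j) + 1 := by
          simp only [ti, dd] at c1 c2 ⊢
          split_ifs <;> omega
        rw [e1]
        refine (h1 _ ?_).2
        simp only [ti, dd] at c1 c2 ⊢
        split_ifs <;> omega
      · have e1 : ti p (i, j) = 0 := by
          simp only [ti, dd] at c1 c2 ⊢
          split_ifs <;> omega
        have e2 : ti p (i', j') = 2 := by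
          simp only [ti, dd] at c1 c2 hda ⊢
          split_ifs <;> omega
        rw [e1, e2]
        exact h1.2
  · intro h d
    rw [Link_iff]
    have hg : ∀ d t d' t' : ℕ, d < 2 * p + 3 + 1 → t < len p d → d' < 2 * p + 3 + 1 →
        t' < len p d' → (cell p d' t' = ((cell p d t).1, (cell p d t).2 + 1) ∨
          cell p d' t' = ((cell p d t).1 + 1, (cell p d t).2)) →
        val p x d t < val p x d' t' := by
      intro d t d' t' hd ht hd' ht' hr
      have h1 := h ⟨cell p d t, cell_mem hd ht⟩ ⟨cell p d' t', cell_mem hd' ht'⟩ hr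
      rw [Psi_eq, Psi_eq] at h1
      simp only [dd_cell hd ht, ti_cell hd ht, dd_cell hd' ht', ti_cell hd' ht'] at h1
      exact h1
    have hd := d.2
    split_ifs with c1 c2
    · intro t ht
      have l1 : t < len p d := by
        unfold len
        split_ifs <;> omega
      have l2 : t + 1 < len p (d + 1) := by
        unfold len
        split_ifs <;> omega
      refine ⟨hg (d + 1) t d t (by omega) (by omega) (by omega) l1 (Or.inr ?_),
        hg d t (d + 1) (t + 1) (by omega) l1 (by omega) l2 (Or.inl ?_)⟩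
      · unfold cell
        split_ifs <;> (refine Prod.ext ?_ ?_ <;> simp only <;> omega)
      · unfold cell
        split_ifs <;> (refine Prod.ext ?_ ?_ <;> simp only <;> omega)
    · intro t ht
      have l1 : t + 1 < len p d := by
        unfold len
        split_ifs <;> omega
      have l2 : t < len p (d + 1) := by
        unfold len
        split_ifs <;> omega
      refine ⟨hg d t (d + 1) t (by omega) (by omega) (by omega) l2 (Or.inl ?_),
        hg (d + 1) t d (t + 1) (by omega) l2 (by omega) l1 (Or.inr ?_)⟩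
      · unfold cell
        split_ifs <;> (refine Prod.ext ?_ ?_ <;> simp only <;> omega)
      · unfold cell
        split_ifs <;> (refine Prod.ext ?_ ?_ <;> simp only <;> omega)
    · have l1 : 2 < len p d := by
        unfold len
        split_ifs <;> omega
      have l2 : 0 < len p (d + 1) := by
        unfold len
        split_ifs <;> omega
      refine ⟨hg d 1 (d + 1) 0 (by omega) (by omega) (by omega) l2 (Or.inl ?_),
        hg (d + 1) 0 d 2 (by omega) l2 (by omega) l1 (Or.inr ?_)⟩
      · unfold cell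
        split_ifs <;> (refine Prod.ext ?_ ?_ <;> simp only <;> omega)
      · unfold cell
        split_ifs <;> (refine Prod.ext ?_ ?_ <;> simp only <;> omega)

theorem t_GEO : J_GEO := by
  classical
  intro p
  set S : Set ({c : ℕ × ℕ // c ∈ D (p + 3)} → ℝ) := {f | ∀ a b, Rel (p + 3) a b → f a < f b} with hS
  have hSm : MeasurableSet S := by
    have : S = ⋂ a, ⋂ b, {f | Rel (p + 3) a b → f a < f b} := by
      ext f
      simp [hS]
    rw [this]
    refine MeasurableSet.iInter fun a => MeasurableSet.iInter fun b => ?_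
    by_cases hab : Rel (p + 3) a b
    · have : {f : {c : ℕ × ℕ // c ∈ D (p + 3)} → ℝ | Rel (p + 3) a b → f a < f b} =
          {f | f a < f b} := by
        ext f
        simp [hab]
      rw [this]
      exact measurableSet_lt (measurable_pi_apply a) (measurable_pi_apply b)
    · have : {f : {c : ℕ × ℕ // c ∈ D (p + 3)} → ℝ | Rel (p + 3) a b → f a < f b} = univ := by
        ext f
        simp [hab]
      rw [this]
      exact MeasurableSet.univ
  rw [← map_Psi, Measure.map_apply (measurable_Psi p) hSm]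
  have h1 : ∀ x : (∀ d : Fin (2 * p + 3 + 1), (Fin (len p d) → ℝ)),
      ∏ d : Fin (2 * p + 3), K p d (x d.castSucc) (x d.succ) =
        (Psi p ⁻¹' S).indicator (fun _ => 1) x := by
    intro x
    unfold K
    rw [Finset.prod_ite_zero]
    simp only [Finset.mem_univ, forall_const, Finset.prod_const_one]
    by_cases hx : ∀ d : Fin (2 * p + 3), Link p d (x d.castSucc) (x d.succ)
    · rw [if_pos hx, indicator_of_mem (show x ∈ Psi p ⁻¹' S from (key p x).1 hx)]
    · have hx' : x ∉ Psi p ⁻¹' S := fun h => hx ((key p x).2 h)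
      rw [if_neg hx, indicator_of_notMem hx']
  rw [lintegral_congr h1, lintegral_indicator_const (measurable_Psi p hSm), one_mul]

end Q121.SY.Geo
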