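import Pool.Agent.Q160.SY.Stm

/-!
# Project SY: the last integral (job INT)
-/

set_option autoImplicit false

open MeasureTheory intervalIntegral
open scoped Nat

namespace Q121.SY

open Pool.Agent.Q160.SY

theorem cont_q (p : ℕ) : Continuous fun t : ℝ => (t * (1 - t)) ^ p := by fun_prop

theorem hasDerivAt_q (k : ℕ) (x : ℝ) :
    HasDerivAt (fun x : ℝ => (x * (1 - x)) ^ (k + 1))
      (((k : ℝ) + 1) * (x * (1 - x)) ^ k * (1 - 2 * x)) x := by
  have h1 : HasDerivAt (fun x : ℝ => x * (1 - x)) (1 - 2 * x) x := by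
    have := (hasDerivAt_id' x).fun_mul ((hasDerivAt_const x (1 : ℝ)).fun_sub (hasDerivAt_id' x))
    refine this.congr_deriv ?_
    ring
  have h2 := h1.fun_pow (k + 1)
  refine h2.congr_deriv ?_
  push_cast
  simp only [add_tsub_cancel_right]

theorem hasDerivAt_s (x : ℝ) : HasDerivAt (fun x : ℝ => 1 - 2 * x) (-2) x := by
  have := (hasDerivAt_const x (1 : ℝ)).fun_sub ((hasDerivAt_id' x).const_mul 2)
  refine this.congr_deriv ?_
  ring

/-- the Beta integral -/
theorem beta_int (k : ℕ) : ∫ x in (0 : ℝ)..1, (x * (1 - x)) ^ k = (k ! : ℝ) ^ 2 / (2 * k + 1)! := by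
  induction k with
  | zero => simp
  | succ k ih =>
    have hd : ∀ x ∈ Set.uIcc (0 : ℝ) 1, HasDerivAt (fun x : ℝ => (1 - 2 * x) * (x * (1 - x)) ^ (k + 1))
        (((k : ℝ) + 1) * (x * (1 - x)) ^ k - (4 * k + 6) * (x * (1 - x)) ^ (k + 1)) x := by
      intro x _
      refine ((hasDerivAt_s x).fun_mul (hasDerivAt_q k x)).congr_deriv ?_
      rw [pow_succ]
      ring
    have hi : IntervalIntegrable (fun x : ℝ => ((k : ℝ) + 1) * (x * (1 - x)) ^ k -
        (4 * k + 6) * (x * (1 - x)) ^ (k + 1)) volume 0 1 := by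
      apply Continuous.intervalIntegrable
      fun_prop
    have h1 := integral_eq_sub_of_hasDerivAt hd hi
    rw [intervalIntegral.integral_sub (((cont_q k).const_mul _ ).intervalIntegrable _ _)
      (((cont_q (k + 1)).const_mul _).intervalIntegrable _ _), intervalIntegral.integral_const_mul,
      intervalIntegral.integral_const_mul, ih] at h1
    have h2 : (1 - 2 * (1 : ℝ)) * ((1 : ℝ) * (1 - 1)) ^ (k + 1) -
        (1 - 2 * 0) * ((0 : ℝ) * (1 - 0)) ^ (k + 1) = 0 := by simp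
    rw [h2] at h1
    have h3 : ((2 * (k + 1) + 1)! : ℝ) = (2 * k + 3) * (2 * k + 2) * (2 * k + 1)! := by
      have : 2 * (k + 1) + 1 = (2 * k + 1) + 1 + 1 := by ring
      rw [this, Nat.factorial_succ, Nat.factorial_succ]
      push_cast
      ring
    have h4 : ((k + 1)! : ℝ) = (k + 1) * k ! := by
      rw [Nat.factorial_succ]
      push_cast
      ring
    have h5 : ((2 * k + 1)! : ℝ) ≠ 0 := by exact_mod_cast Nat.factorial_ne_zero _
    rw [h3, h4]
    have h6 : (4 * (k : ℝ) + 6) ≠ 0 := by positivity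
    have h7 : ∫ x in (0 : ℝ)..1, (x * (1 - x)) ^ (k + 1) =
        ((k : ℝ) + 1) * ((k ! : ℝ) ^ 2 / (2 * k + 1)!) / (4 * k + 6) := by
      rw [eq_div_iff h6]
      linarith
    rw [h7]
    field_simp
    ring

/-- the recurrences -/
theorem rec_mo (p k : ℕ) (x : ℝ) :
    (k : ℝ) * (x * (1 - x)) * mo p (k - 1) x + (k + p + 1) * (1 - 2 * x) * mo p k x -
      (k + 2 * (p + 1)) * mo p (k + 1) x = - (0 : ℝ) ^ k * (x * (1 - x)) ^ (p + 1) := by
  have hd : ∀ t ∈ Set.uIcc x 1, HasDerivAt (fun t : ℝ => (t - x) ^ k * (t * (1 - t)) ^ (p + 1))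
      ((k : ℝ) * (x * (1 - x)) * ((t - x) ^ (k - 1) * (t * (1 - t)) ^ p) +
        (k + p + 1) * (1 - 2 * x) * ((t - x) ^ k * (t * (1 - t)) ^ p) -
        (k + 2 * (p + 1)) * ((t - x) ^ (k + 1) * (t * (1 - t)) ^ p)) t := by
    intro t _
    have h1 : HasDerivAt (fun t : ℝ => (t - x) ^ k) (k * (t - x) ^ (k - 1)) t := by
      have := ((hasDerivAt_id' t).sub_const x).fun_pow k
      simpa using this
    refine (h1.fun_mul (hasDerivAt_q p t)).congr_deriv ?_
    rcases k with _ | k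
    · simp only [Nat.cast_zero, pow_zero, zero_mul, zero_add, pow_one, one_mul]
      ring
    · simp only [Nat.add_sub_cancel]
      push_cast
      rw [pow_succ (t * (1 - t)) p, pow_succ (t - x) (k + 1), pow_succ (t - x) k]
      ring
  have c1 : ∀ j : ℕ, Continuous fun t : ℝ => (t - x) ^ j * (t * (1 - t)) ^ p := fun j => by fun_prop
  have hi : IntervalIntegrable (fun t : ℝ => (k : ℝ) * (x * (1 - x)) * ((t - x) ^ (k - 1) * (t * (1 - t)) ^ p) +
        (k + p + 1) * (1 - 2 * x) * ((t - x) ^ k * (t * (1 - t)) ^ p) -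
        (k + 2 * (p + 1)) * ((t - x) ^ (k + 1) * (t * (1 - t)) ^ p)) volume x 1 := by
    apply Continuous.intervalIntegrable
    fun_prop
  have h1 := integral_eq_sub_of_hasDerivAt hd hi
  have i1 : IntervalIntegrable (fun t : ℝ => (k : ℝ) * (x * (1 - x)) *
      ((t - x) ^ (k - 1) * (t * (1 - t)) ^ p)) volume x 1 :=
    (((c1 _).const_mul _)).intervalIntegrable _ _
  have i2 : IntervalIntegrable (fun t : ℝ => ((k : ℝ) + p + 1) * (1 - 2 * x) *
      ((t - x) ^ k * (t * (1 - t)) ^ p)) volume x 1 := (((c1 _).const_mul _)).intervalIntegrable _ _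
  have i3 : IntervalIntegrable (fun t : ℝ => ((k : ℝ) + 2 * (p + 1)) *
      ((t - x) ^ (k + 1) * (t * (1 - t)) ^ p)) volume x 1 :=
    (((c1 _).const_mul _)).intervalIntegrable _ _
  rw [intervalIntegral.integral_sub (i1.add i2) i3, intervalIntegral.integral_add i1 i2,
    intervalIntegral.integral_const_mul,
    intervalIntegral.integral_const_mul, intervalIntegral.integral_const_mul] at h1
  unfold mo
  rw [h1]
  simp

theorem hasDerivAt_mo0 (p : ℕ) (x : ℝ) : HasDerivAt (mo p 0) (-(x * (1 - x)) ^ p) x := by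
  have h1 : mo p 0 = fun x => - ∫ t in (1 : ℝ)..x, (t * (1 - t)) ^ p := by
    funext x
    unfold mo
    rw [intervalIntegral.integral_symm]
    simp
  rw [h1]
  exact (integral_hasDerivAt_right ((cont_q p).intervalIntegrable _ _)
    ((cont_q p).stronglyMeasurableAtFilter _ _) (cont_q p).continuousAt).neg

theorem t_INT : J_INT := by
  intro p
  have hD : (2 * (p : ℝ) + 3) ≠ 0 := by positivity
  have hp1 : ((p : ℝ) + 1) ≠ 0 := by positivity
  have hp2 : ((p : ℝ) + 2) ≠ 0 := by positivity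
  have hm1 : ∀ x, mo p 1 x = (1 - 2 * x) / 2 * mo p 0 x + (x * (1 - x)) ^ (p + 1) / (2 * (p + 1)) := by
    intro x
    have := rec_mo p 0 x
    simp only [Nat.cast_zero, zero_mul, zero_add, pow_zero] at this
    field_simp
    linarith
  have hm2 : ∀ x, mo p 2 x = ((p + 2) * (1 - 2 * x) * mo p 1 x + x * (1 - x) * mo p 0 x) / (2 * p + 3) := by
    intro x
    have := rec_mo p 1 x
    simp only [Nat.cast_one, one_mul, Nat.sub_self, pow_one, neg_zero, zero_mul] at this
    rw [eq_div_iff hD]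
    linarith
  have hm3 : ∀ x, mo p 3 x = ((p + 3) * (1 - 2 * x) * mo p 2 x + 2 * (x * (1 - x)) * mo p 1 x) / (2 * p + 4) := by
    intro x
    have := rec_mo p 2 x
    have e : (2 * (p : ℝ) + 4) ≠ 0 := by positivity
    simp only [Nat.cast_ofNat, Nat.add_one_sub_one] at this
    rw [eq_div_iff e]
    norm_num at this
    linarith
  set A : ℝ → ℝ := fun x => (1 - 2 * x) * (x * (1 - x)) ^ (p + 1) / (8 * (2 * p + 3) ^ 2) with hA
  set B : ℝ → ℝ := fun x => (x * (1 - x)) ^ (2 * p + 1 + 1) / (4 * (2 * p + 3) ^ 2 * (p + 1)) +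
    (x * (1 - x)) ^ (2 * p + 2 + 1) / (4 * (2 * p + 3) ^ 2 * (p + 2)) with hB
  set c1 : ℝ := 3 / (8 * (2 * p + 3) ^ 2 * (p + 1)) with hc1
  set c2 : ℝ := 1 / (4 * (2 * p + 3) ^ 2 * (p + 2)) +
    (4 * p ^ 2 + 12 * p + 10) / (8 * (p + 2) * (p + 1) ^ 2 * (2 * p + 3) ^ 2) with hc2
  have hdA : ∀ x, HasDerivAt A ((-2 * (x * (1 - x)) ^ (p + 1) + (1 - 2 * x) *
      ((p + 1) * (x * (1 - x)) ^ p * (1 - 2 * x))) / (8 * (2 * p + 3) ^ 2)) x := fun x =>
    ((hasDerivAt_s x).fun_mul (hasDerivAt_q p x)).div_const _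
  have hdB : ∀ x, HasDerivAt B ((((2 * p + 1 : ℕ) : ℝ) + 1) * (x * (1 - x)) ^ (2 * p + 1) * (1 - 2 * x) /
      (4 * (2 * p + 3) ^ 2 * (p + 1)) + (((2 * p + 2 : ℕ) : ℝ) + 1) * (x * (1 - x)) ^ (2 * p + 2) *
      (1 - 2 * x) / (4 * (2 * p + 3) ^ 2 * (p + 2))) x := fun x =>
    ((hasDerivAt_q (2 * p + 1) x).div_const _).fun_add ((hasDerivAt_q (2 * p + 2) x).div_const _)
  have hd : ∀ x ∈ Set.uIcc (0 : ℝ) 1, HasDerivAt (fun x => A x * (mo p 0 x * mo p 0 x) + B x * mo p 0 x)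
      ((x * (1 - x)) ^ p * (mo p 1 x * mo p 3 x - mo p 2 x ^ 2) -
        (c1 * (x * (1 - x)) ^ (3 * p + 2) + c2 * (x * (1 - x)) ^ (3 * p + 3))) x := by
    intro x _
    have h0 := hasDerivAt_mo0 p x
    refine (((hdA x).fun_mul (h0.fun_mul h0)).fun_add ((hdB x).fun_mul h0)).congr_deriv ?_
    rw [hm3, hm2, hm1]
    simp only [hA, hB, hc1, hc2]
    have e1 : (x * (1 - x)) ^ (p + 1) = (x * (1 - x)) ^ p * (x * (1 - x)) := pow_succ _ _
    have e2 : (x * (1 - x)) ^ (2 * p + 1) = ((x * (1 - x)) ^ p) ^ 2 * (x * (1 - x)) := by ring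
    have e3 : (x * (1 - x)) ^ (2 * p + 2) = ((x * (1 - x)) ^ p) ^ 2 * (x * (1 - x)) ^ 2 := by ring
    have e5 : (x * (1 - x)) ^ (2 * p + 2 + 1) = ((x * (1 - x)) ^ p) ^ 2 * (x * (1 - x)) ^ 3 := by ring
    have e6 : (x * (1 - x)) ^ (3 * p + 2) = ((x * (1 - x)) ^ p) ^ 3 * (x * (1 - x)) ^ 2 := by ring
    have e7 : (x * (1 - x)) ^ (3 * p + 3) = ((x * (1 - x)) ^ p) ^ 3 * (x * (1 - x)) ^ 3 := by ring
    rw [e1, e2, e3, e5, e6, e7]
    generalize (x * (1 - x)) ^ p = g
    generalize mo p 0 x = m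
    push_cast
    field_simp
    ring
  have hcA : Continuous A := continuous_iff_continuousAt.2 fun x => (hdA x).continuousAt
  have hc0 : Continuous (mo p 0) := continuous_iff_continuousAt.2 fun x =>
    (hasDerivAt_mo0 p x).continuousAt
  have hc1' : Continuous (mo p 1) := by
    have : mo p 1 = fun x => (1 - 2 * x) / 2 * mo p 0 x + (x * (1 - x)) ^ (p + 1) / (2 * (p + 1)) :=
      funext hm1
    rw [this]
    fun_prop
  have hc2' : Continuous (mo p 2) := by
    have : mo p 2 = fun x => ((p + 2) * (1 - 2 * x) * mo p 1 x + x * (1 - x) * mo p 0 x) / (2 * p + 3) :=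
      funext hm2
    rw [this]
    fun_prop
  have hc3' : Continuous (mo p 3) := by
    have : mo p 3 = fun x => ((p + 3) * (1 - 2 * x) * mo p 2 x + 2 * (x * (1 - x)) * mo p 1 x) /
        (2 * p + 4) := funext hm3
    rw [this]
    fun_prop
  have i1 : IntervalIntegrable (fun x => (x * (1 - x)) ^ p * (mo p 1 x * mo p 3 x - mo p 2 x ^ 2))
      volume 0 1 := by
    apply Continuous.intervalIntegrable
    fun_prop
  have i2 : IntervalIntegrable (fun x : ℝ => c1 * (x * (1 - x)) ^ (3 * p + 2)) volume 0 1 := by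
    apply Continuous.intervalIntegrable
    fun_prop
  have i3 : IntervalIntegrable (fun x : ℝ => c2 * (x * (1 - x)) ^ (3 * p + 3)) volume 0 1 := by
    apply Continuous.intervalIntegrable
    fun_prop
  have h1 := integral_eq_sub_of_hasDerivAt hd (i1.sub (i2.add i3))
  rw [intervalIntegral.integral_sub i1 (i2.add i3), intervalIntegral.integral_add i2 i3,
    intervalIntegral.integral_const_mul, intervalIntegral.integral_const_mul, beta_int,
    beta_int] at h1
  have h2 : A 1 * (mo p 0 1 * mo p 0 1) + B 1 * mo p 0 1 - (A 0 * (mo p 0 0 * mo p 0 0) +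
      B 0 * mo p 0 0) = 0 := by
    simp [hA, hB]
  rw [h2, sub_eq_zero] at h1
  rw [h1]
  have f1 : ((3 * p + 3)! : ℝ) = (3 * p + 3) * (3 * p + 2)! := by
    rw [Nat.factorial_succ]
    push_cast
    ring
  have f2 : ((3 * p + 5)! : ℝ) = (3 * p + 5) * (3 * p + 4) * (3 * p + 3) * (3 * p + 2)! := by
    rw [Nat.factorial_succ, Nat.factorial_succ, Nat.factorial_succ]
    push_cast
    ring
  have f3 : ((2 * (3 * p + 2) + 1)! : ℝ) = (6 * p + 5)! := by
    congr 2
    ring
  have f4 : ((2 * (3 * p + 3) + 1)! : ℝ) = (6 * p + 7) * (6 * p + 6) * (6 * p + 5)! := by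
    have : 2 * (3 * p + 3) + 1 = (6 * p + 5) + 1 + 1 := by ring
    rw [this, Nat.factorial_succ, Nat.factorial_succ]
    push_cast
    ring
  have f5 : ((6 * p + 10)! : ℝ) = (6 * p + 10) * (6 * p + 9) * (6 * p + 8) * (6 * p + 7) *
      (6 * p + 6) * (6 * p + 5)! := by
    have : 6 * p + 10 = (6 * p + 5) + 1 + 1 + 1 + 1 + 1 := by ring
    rw [this, Nat.factorial_succ, Nat.factorial_succ, Nat.factorial_succ, Nat.factorial_succ,
      Nat.factorial_succ]
    push_cast
    ring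
  have f6 : ((6 * p + 5)! : ℝ) ≠ 0 := by exact_mod_cast Nat.factorial_ne_zero _
  rw [f1, f2, f3, f4, f5, hc1, hc2]
  field_simp
  ring

end Q121.SY
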