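import Pool.Agent.Q160.SY.Stm

/-!
# Project SY: two of the three integrals (job TRI)
-/

set_option autoImplicit false

open MeasureTheory intervalIntegral Set
open scoped Nat

namespace Q121.SY

open Pool.Agent.Q160.SY

/-- the coordinates -/
def Φ (x : Fin 3 → ℝ) : ℝ × (ℝ × ℝ) := (x 0, (x 1, x 2))

noncomputable def Φe : (Fin 3 → ℝ) ≃ᵐ ℝ × (ℝ × ℝ) :=
  (MeasurableEquiv.piFinSuccAbove (fun _ : Fin 3 => ℝ) 0).trans
    ((MeasurableEquiv.refl ℝ).prodCongr MeasurableEquiv.finTwoArrow)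

theorem Φe_apply (x : Fin 3 → ℝ) : Φe x = Φ x := rfl

theorem mp_Φ : MeasurePreserving (Φe : (Fin 3 → ℝ) → ℝ × (ℝ × ℝ)) := by
  refine (MeasurePreserving.prod (MeasurePreserving.id volume)
    (volume_preserving_finTwoArrow ℝ)).comp
    (volume_preserving_piFinSuccAbove (fun _ : Fin 3 => ℝ) 0)

/-- the integrand in the two inner variables -/
noncomputable def hh2 (p : ℕ) (x : ℝ) (z : ℝ × ℝ) : ℝ :=
  (z.2 - z.1) * (((z.1 - x) * (z.2 - x) * (z.2 - z.1)) *
    ((z.1 * (1 - z.1)) ^ p * (z.2 * (1 - z.2)) ^ p))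

/-- the domain in the two inner variables -/
def T (x : ℝ) : Set (ℝ × ℝ) := {z | x < z.1 ∧ z.1 < z.2 ∧ z.2 < 1}

theorem meas_T (x : ℝ) : MeasurableSet (T x) :=
  (measurableSet_lt measurable_const measurable_fst).inter
    ((measurableSet_lt measurable_fst measurable_snd).inter
      (measurableSet_lt measurable_snd measurable_const))

theorem cont_hh2 (p : ℕ) (x : ℝ) : Continuous (hh2 p x) := by
  unfold hh2
  fun_prop

theorem inner (p : ℕ) (x : ℝ) (hx : x < 1) : ∫ z in T x, hh2 p x z =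
    mo p 1 x * mo p 3 x - mo p 2 x ^ 2 := by
  have hmo : ∀ k, mo p k x = ∫ t in Ioo x 1, (t - x) ^ k * (t * (1 - t)) ^ p := by
    intro k
    unfold mo
    rw [intervalIntegral.integral_of_le hx.le, integral_Ioc_eq_integral_Ioo]
  have hsub : T x ⊆ Ioo x 1 ×ˢ Ioo x 1 := by
    rintro ⟨t, u⟩ ⟨h1, h2, h3⟩
    exact ⟨⟨h1, h2.trans h3⟩, ⟨h1.trans h2, h3⟩⟩
  have hint : IntegrableOn (hh2 p x) (Ioo x 1 ×ˢ Ioo x 1) (volume : Measure (ℝ × ℝ)) := by
    refine IntegrableOn.mono_set ?_ (prod_mono Ioo_subset_Icc_self Ioo_subset_Icc_self)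
    exact (cont_hh2 p x).continuousOn.integrableOn_compact (isCompact_Icc.prod isCompact_Icc)
  -- the full square
  have hci : ∀ k, IntegrableOn (fun t : ℝ => (t - x) ^ k * (t * (1 - t)) ^ p) (Ioo x 1) volume := by
    intro k
    refine IntegrableOn.mono_set ?_ Ioo_subset_Icc_self
    apply ContinuousOn.integrableOn_compact isCompact_Icc
    fun_prop
  have hfull : ∫ z in Ioo x 1 ×ˢ Ioo x 1, hh2 p x z = 2 * (mo p 1 x * mo p 3 x - mo p 2 x ^ 2) := by
    have e : ∀ z : ℝ × ℝ, hh2 p x z =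
        ((z.1 - x) ^ 1 * (z.1 * (1 - z.1)) ^ p) * ((z.2 - x) ^ 3 * (z.2 * (1 - z.2)) ^ p) +
        ((z.1 - x) ^ 3 * (z.1 * (1 - z.1)) ^ p) * ((z.2 - x) ^ 1 * (z.2 * (1 - z.2)) ^ p) -
        2 * (((z.1 - x) ^ 2 * (z.1 * (1 - z.1)) ^ p) * ((z.2 - x) ^ 2 * (z.2 * (1 - z.2)) ^ p)) := by
      intro z
      unfold hh2
      ring
    have hp : ∀ j k : ℕ, IntegrableOn (fun z : ℝ × ℝ => ((z.1 - x) ^ j * (z.1 * (1 - z.1)) ^ p) *
        ((z.2 - x) ^ k * (z.2 * (1 - z.2)) ^ p)) (Ioo x 1 ×ˢ Ioo x 1) (volume : Measure (ℝ × ℝ)) := by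
      intro j k
      refine IntegrableOn.mono_set ?_ (prod_mono Ioo_subset_Icc_self Ioo_subset_Icc_self)
      apply ContinuousOn.integrableOn_compact (isCompact_Icc.prod isCompact_Icc)
      fun_prop
    have hv : ∀ j k : ℕ, ∫ z in Ioo x 1 ×ˢ Ioo x 1, ((z.1 - x) ^ j * (z.1 * (1 - z.1)) ^ p) *
        ((z.2 - x) ^ k * (z.2 * (1 - z.2)) ^ p) = mo p j x * mo p k x := by
      intro j k
      rw [hmo, hmo]
      exact setIntegral_prod_mul (fun t : ℝ => (t - x) ^ j * (t * (1 - t)) ^ p)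
        (fun t : ℝ => (t - x) ^ k * (t * (1 - t)) ^ p) (Ioo x 1) (Ioo x 1)
    simp only [e]
    have h13 : IntegrableOn (fun z : ℝ × ℝ =>
        ((z.1 - x) ^ 1 * (z.1 * (1 - z.1)) ^ p) * ((z.2 - x) ^ 3 * (z.2 * (1 - z.2)) ^ p) +
        ((z.1 - x) ^ 3 * (z.1 * (1 - z.1)) ^ p) * ((z.2 - x) ^ 1 * (z.2 * (1 - z.2)) ^ p))
        (Ioo x 1 ×ˢ Ioo x 1) (volume : Measure (ℝ × ℝ)) := (hp 1 3).add (hp 3 1)
    rw [integral_sub h13 ((hp 2 2).const_mul 2), integral_add (hp 1 3) (hp 3 1),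
      MeasureTheory.integral_const_mul, hv, hv, hv]
    ring
  -- the mirror image
  have hswap : ∫ z in Prod.swap ⁻¹' T x, hh2 p x z = ∫ z in T x, hh2 p x z := by
    have h1 := (Measure.measurePreserving_swap (μ := (volume : Measure ℝ))
      (ν := (volume : Measure ℝ))).setIntegral_preimage_emb
      MeasurableEquiv.prodComm.measurableEmbedding (hh2 p x) (T x)
    refine Eq.trans ?_ h1
    refine integral_congr_ae (Filter.Eventually.of_forall fun z => ?_)
    simp only [hh2, Prod.fst_swap, Prod.snd_swap]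
    ring
  have hdisj : Disjoint (T x) (Prod.swap ⁻¹' T x) := by
    rw [Set.disjoint_left]
    rintro ⟨t, u⟩ ⟨_, h2, _⟩ ⟨_, h4, _⟩
    exact lt_asymm h2 h4
  have hae : (T x ∪ Prod.swap ⁻¹' T x : Set (ℝ × ℝ)) =ᵐ[volume] (Ioo x 1 ×ˢ Ioo x 1 : Set (ℝ × ℝ)) := by
    have hnull : ∀ᵐ z : ℝ × ℝ, z.1 ≠ z.2 := by
      rw [ae_iff]
      have h1 : {z : ℝ × ℝ | ¬ z.1 ≠ z.2} = {z | z.1 = z.2} := by
        ext z
        simp
      rw [h1]
      have hm : MeasurableSet {z : ℝ × ℝ | z.1 = z.2} := measurableSet_eq_fun measurable_fst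
        measurable_snd
      rw [Measure.volume_eq_prod, Measure.prod_apply hm]
      simp only [preimage_ofPred_eq]
      have : ∀ a : ℝ, volume {b : ℝ | a = b} = 0 := by
        intro a
        have : {b : ℝ | a = b} = {a} := by
          ext b
          simp [eq_comm]
        rw [this]
        exact measure_singleton a
      simp
    filter_upwards [hnull] with z hz
    apply propext
    constructor
    · rintro (h | h)
      · exact hsub h
      · obtain ⟨h1, h2, h3⟩ := h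
        exact ⟨⟨h1.trans h2, h3⟩, ⟨h1, h2.trans h3⟩⟩
    · rintro ⟨⟨h1, h2⟩, ⟨h3, h4⟩⟩
      rcases lt_or_gt_of_ne hz with h | h
      · exact Or.inl ⟨h1, h, h4⟩
      · exact Or.inr ⟨h3, h, h2⟩
  have hm' : MeasurableSet (Prod.swap ⁻¹' T x) := measurable_swap (meas_T x)
  have h2 : ∫ z in T x ∪ Prod.swap ⁻¹' T x, hh2 p x z =
      (∫ z in T x, hh2 p x z) + ∫ z in Prod.swap ⁻¹' T x, hh2 p x z :=
    setIntegral_union hdisj hm' (hint.mono_set hsub) (hint.mono_set (by
      rintro ⟨t, u⟩ ⟨h1, h2, h3⟩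
      exact ⟨⟨h1.trans h2, h3⟩, ⟨h1, h2.trans h3⟩⟩))
  rw [setIntegral_congr_set hae, hfull, hswap] at h2
  linarith

/-- the integrand -/
noncomputable def gg (p : ℕ) (w : ℝ × (ℝ × ℝ)) : ℝ := (w.1 * (1 - w.1)) ^ p * hh2 p w.1 w.2

theorem t_TRI : J_TRI := by
  intro p
  set S : Set (ℝ × (ℝ × ℝ)) := {w | 0 < w.1 ∧ w.2 ∈ T w.1} with hS
  have hSm : MeasurableSet S := by
    have : S = {w | 0 < w.1} ∩ ({w | w.1 < w.2.1} ∩ ({w | w.2.1 < w.2.2} ∩ {w | w.2.2 < 1})) := rfl
    rw [this]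
    refine (measurableSet_lt measurable_const measurable_fst).inter
      ((measurableSet_lt measurable_fst (measurable_fst.comp measurable_snd)).inter
      ((measurableSet_lt (measurable_fst.comp measurable_snd)
        (measurable_snd.comp measurable_snd)).inter
        (measurableSet_lt (measurable_snd.comp measurable_snd) measurable_const)))
  have hpre : {x : Fin 3 → ℝ | StrictMono x ∧ ∀ i, x i ∈ Set.Ioo (0 : ℝ) 1} = Φe ⁻¹' S := by
    ext x
    simp only [mem_ofPred_eq, mem_preimage]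
    change _ ↔ 0 < x 0 ∧ x 0 < x 1 ∧ x 1 < x 2 ∧ x 2 < 1
    constructor
    · rintro ⟨h1, h2⟩
      exact ⟨(h2 0).1, h1 (by decide), h1 (by decide), (h2 2).2⟩
    · rintro ⟨h1, h2, h3, h4⟩
      refine ⟨Fin.strictMono_iff_lt_succ.2 fun i => ?_, fun i => ?_⟩
      · fin_cases i
        · exact h2
        · exact h3
      · fin_cases i
        · exact ⟨h1, h2.trans (h3.trans h4)⟩
        · exact ⟨h1.trans h2, h3.trans h4⟩
        · exact ⟨h1.trans (h2.trans h3), h4⟩
  rw [hpre]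
  have hfun : ∀ x : Fin 3 → ℝ, (x 2 - x 1) * ((Matrix.vandermonde x).det *
      ∏ i, (x i * (1 - x i)) ^ p) = gg p (Φe x) := by
    intro x
    rw [Φe_apply, Matrix.det_vandermonde]
    simp only [gg, hh2, Φ]
    have e : ∏ i : Fin 3, ∏ j ∈ Finset.Ioi i, (x j - x i) = (x 1 - x 0) * (x 2 - x 0) * (x 2 - x 1) := by
      rw [Fin.prod_univ_three]
      have e0 : (Finset.Ioi (0 : Fin 3)) = {1, 2} := by decide
      have e1 : (Finset.Ioi (1 : Fin 3)) = {2} := by decide
      have e2 : (Finset.Ioi (2 : Fin 3)) = ∅ := by decide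
      rw [e0, e1, e2, Finset.prod_pair (by decide), Finset.prod_singleton, Finset.prod_empty, mul_one]
    rw [e, Fin.prod_univ_three]
    ring
  simp only [hfun]
  rw [mp_Φ.setIntegral_preimage_emb Φe.measurableEmbedding]
  have hcont : Continuous (gg p) := by
    unfold gg hh2
    fun_prop
  have hSsub : S ⊆ Icc 0 1 ×ˢ (Icc 0 1 ×ˢ Icc 0 1) := by
    rintro ⟨x, t, u⟩ ⟨h1, h2, h3, h4⟩
    simp only at h1 h2 h3 h4
    exact ⟨⟨h1.le, (h2.trans (h3.trans h4)).le⟩, ⟨(h1.trans h2).le, (h3.trans h4).le⟩,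
      ⟨(h1.trans (h2.trans h3)).le, h4.le⟩⟩
  have hI : IntegrableOn (gg p) S volume := by
    refine IntegrableOn.mono_set ?_ hSsub
    exact hcont.continuousOn.integrableOn_compact
      (isCompact_Icc.prod (isCompact_Icc.prod isCompact_Icc))
  rw [← MeasureTheory.integral_indicator hSm, Measure.volume_eq_prod, integral_prod _
    ((integrable_indicator_iff hSm).2 hI), intervalIntegral.integral_of_le zero_le_one,
    integral_Ioc_eq_integral_Ioo, ← MeasureTheory.integral_indicator measurableSet_Ioo]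
  refine integral_congr_ae (Filter.Eventually.of_forall fun x => ?_)
  simp only
  by_cases hx : x ∈ Ioo (0 : ℝ) 1
  · rw [indicator_of_mem hx]
    have h1 : ∀ z : ℝ × ℝ, S.indicator (gg p) (x, z) =
        (T x).indicator (fun z => (x * (1 - x)) ^ p * hh2 p x z) z := by
      intro z
      by_cases hz : z ∈ T x
      · rw [indicator_of_mem hz, indicator_of_mem (show (x, z) ∈ S from ⟨hx.1, hz⟩)]
        rfl
      · rw [indicator_of_notMem hz, indicator_of_notMem (fun h => hz h.2)]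
    simp only [h1]
    rw [MeasureTheory.integral_indicator (meas_T x), MeasureTheory.integral_const_mul, inner p x hx.2]
  · rw [indicator_of_notMem hx]
    have h1 : ∀ z : ℝ × ℝ, S.indicator (gg p) (x, z) = 0 := by
      intro z
      refine indicator_of_notMem (fun h => hx ⟨h.1, ?_⟩) _
      obtain ⟨_, h2, h3, h4⟩ := h
      exact h2.trans (h3.trans h4)
    simp only [h1, integral_zero]

end Q121.SY
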